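import Pool.Agent.Lib.MP_a7239a_co.RK.FLX
import Pool.Agent.Lib.MP_a7239a_co.RG.FULL3

/-!
# The flexible interval of a fat row, with `FatFull3`
-/

set_option autoImplicit false

open Finset

namespace Pool.Agent.Lib.MPa7239a.RT

open Pool.Agent.Lib.MPa7239a.GC
open Pool.Agent.Lib.MPa7239a.RK
open Pool.Agent.Lib.MPa7239a.RG (FatFull3)

/-- the lifted set `A`, ready for the flexible interval: rows `p, ..., q` are not empty, the rows
`i₀ < i₁` have at least `Q + 7` elements, the other elements are few or near -/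
structure Ready3 {G : Type*} [AddCommGroup G] (H : AddSubgroup G) (e q₀ : G) (A : Finset G)
    (z : G → ℤ) (n c θ Q : ℕ) (p q i₀ i₁ : ℤ) : Prop where
  card : #A = n + c
  nq : n • q₀ = 0
  lift : ∀ x ∈ A, x - q₀ - z x • e ∈ H
  fat : FatFull3 H θ
  hQ : Q + #(out A z p q 1) + 4 ≤ n
  hc : 3 ≤ c
  le₀ : p ≤ i₀
  lt : i₀ < i₁
  le₁ : i₁ ≤ q
  rows : ∀ i, p ≤ i → i ≤ q → 7 ≤ #(row A z i)
  row₀ : Q + 7 ≤ #(row A z i₀)
  row₁ : Q + 7 ≤ #(row A z i₁)
  far : ∀ x ∈ A, ∀ d : ℕ, 1 ≤ d → (z x = q + d ∨ z x = p - d) →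
    d + (q - i₁) + (i₀ - p) ≤ (i₁ - i₀) * Q ∧
    d + (q - i₁) + (i₀ - p) + (i₁ - i₀) * (#(out A z p q d) + 3) ≤ (i₁ - i₀) * c

namespace Flx3

/-- a set with some elements of the fat row `f` inside and some outside gives a full coset -/
theorem flex_of_set3 {G : Type*} [AddCommGroup G] [DecidableEq G] {H : AddSubgroup G} {e q₀ : G}
    {A : Finset G} {z : G → ℤ} {n θ : ℕ} (hlift : ∀ x ∈ A, x - q₀ - z x • e ∈ H)
    (hnq : n • q₀ = 0) (hFF : FatFull3 H θ) {f : ℤ} (hfat : Nat.card H + θ ≤ 2 * #(row A z f))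
    {T : Finset G} (hT : T ⊆ A) (hn : #T = n) (h2 : 3 ≤ #(row T z f))
    (h2' : #(row T z f) + 3 ≤ #(row A z f)) : Flex H e A n (∑ x ∈ T, z x) := by
  intro g hg
  set R := T.filter (fun x => ¬ z x = f) with hR
  set d := #(row T z f) with hd
  have hcard : d + #R = n := by
    rw [hd, hR, row, ← hn]
    exact card_filter_add_card_filter_not (s := T) (fun x => z x = f)
  have hzsum : ∑ x ∈ T, z x = (d : ℤ) * f + ∑ x ∈ R, z x := by
    rw [hR, ← sum_filter_add_sum_filter_not T (fun x => z x = f)]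
    congr 1
    rw [sum_congr rfl (g := fun _ => f) (fun x hx => (mem_filter.1 hx).2), sum_const, nsmul_eq_mul]
    rfl
  have hRA : R ⊆ A := (filter_subset _ _).trans hT
  have h3 := Flx.sum_lift hlift hRA
  have h4 : (g - ∑ x ∈ R, x) - d • (q₀ + f • e) ∈ H := by
    have h5 := H.sub_mem hg h3
    have h6 : g - (∑ x ∈ T, z x) • e - (∑ x ∈ R, x - #R • q₀ - (∑ x ∈ R, z x) • e) =
        (g - ∑ x ∈ R, x) - d • (q₀ + f • e) := by
      rw [hzsum]
      have h7 : #R • q₀ = - (d • q₀) := by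
        rw [eq_neg_iff_add_eq_zero, ← add_smul, Nat.add_comm, hcard, hnq]
      rw [h7, add_smul, mul_smul, natCast_zsmul, smul_add]
      abel
    rw [h6] at h5
    exact h5
  obtain ⟨U, hU, hUc, hUs⟩ := hFF (row A z f) (q₀ + f • e) (fun x hx => by
    have h5 := mem_filter.1 hx
    have h6 := hlift x h5.1
    rw [h5.2] at h6
    have h7 : x - (q₀ + f • e) = x - q₀ - f • e := by abel
    rw [h7]
    exact h6) hfat d h2 h2' (g - ∑ x ∈ R, x) h4
  have hdis : Disjoint R U := by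
    rw [disjoint_left]
    intro x hx hxU
    exact (mem_filter.1 hx).2 (mem_filter.1 (hU hxU)).2
  refine ⟨R ∪ U, union_subset hRA (hU.trans (filter_subset _ _)), ?_, ?_⟩
  · rw [card_union_of_disjoint hdis, hUc]
    omega
  · rw [sum_union hdis, hUs]
    abel

/-- a subset with the same sum which contains `P` and avoids `K` -/
theorem exists_swap3 {G : Type*} [DecidableEq G] {A : Finset G} {z : G → ℤ} {f : ℤ}
    {P K : Finset G} (hP : P ⊆ row A z f) (hK : K ⊆ row A z f) (hPK : Disjoint P K)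
    (hPc : #P = 3) (hKc : #K = 3) {D : Finset G} (hD : D ⊆ A) (h2 : 3 ≤ #(row D z f))
    (h2' : #(row D z f) + 3 ≤ #(row A z f)) :
    ∃ D' ⊆ A, #D' = #D ∧ P ⊆ D' ∧ Disjoint K D' ∧ ∑ x ∈ D', z x = ∑ x ∈ D, z x := by
  have hsub : P ⊆ row A z f \ K := by
    intro x hx
    rw [mem_sdiff]
    exact ⟨hP hx, fun h => disjoint_left.1 hPK hx h⟩
  obtain ⟨E, hPE, hEK, hEc⟩ := exists_subsuperset_card_eq hsub (n := #(row D z f)) (by omega)
    (by rw [card_sdiff_of_subset hK]; omega)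
  have hER : ∀ x ∈ E, x ∈ A ∧ z x = f := fun x hx => mem_filter.1 (mem_sdiff.1 (hEK hx)).1
  set R := D.filter (fun x => ¬ z x = f) with hR
  have hdis : Disjoint R E := by
    rw [disjoint_left]
    intro x hx hxE
    exact (mem_filter.1 hx).2 (hER x hxE).2
  refine ⟨R ∪ E, union_subset ((filter_subset _ _).trans hD) (fun x hx => (hER x hx).1), ?_,
    hPE.trans subset_union_right, ?_, ?_⟩
  · rw [card_union_of_disjoint hdis, hEc, Nat.add_comm]
    exact card_filter_add_card_filter_not (s := D) (fun x => z x = f)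
  · rw [disjoint_left]
    intro x hx hx'
    rcases mem_union.1 hx' with h | h
    · exact (mem_filter.1 h).2 (mem_filter.1 (hK hx)).2
    · exact (mem_sdiff.1 (hEK h)).2 hx
  · rw [sum_union hdis, ← sum_filter_add_sum_filter_not D (fun x => z x = f), add_comm]
    congr 1
    rw [sum_congr rfl (g := fun _ => f) (fun x hx => (hER x hx).2), sum_const, hEc,
      sum_congr rfl (g := fun _ => f) (fun x hx => (mem_filter.1 hx).2), sum_const]
    rfl

end Flx3

open Flx3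

set_option linter.unusedVariables false in
/-- the flexible interval of a fat row -/
theorem flx3 {G : Type*} [AddCommGroup G] [DecidableEq G] {H : AddSubgroup G} {e q₀ : G}
    {A : Finset G} {z : G → ℤ} {n c θ Q : ℕ} {p q i₀ i₁ : ℤ}
    (h : Ready3 H e q₀ A z n c θ Q p q i₀ i₁) {f : ℤ} (hpf : p ≤ f) (hfq : f ≤ q)
    (hfat : Nat.card H + θ ≤ 2 * #(row A z f)) {D₁ D₂ : Finset G} (hD₁ : D₁ ⊆ A) (hD₂ : D₂ ⊆ A)
    (hc₁ : #D₁ = c) (hc₂ : #D₂ = c) (h₁ : 3 ≤ #(row D₁ z f))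
    (h₁' : #(row D₁ z f) + 3 ≤ #(row A z f)) (h₂ : 3 ≤ #(row D₂ z f))
    (h₂' : #(row D₂ z f) + 3 ≤ #(row A z f)) {Y : ℤ}
    (hY₂ : ∑ x ∈ A, z x - ∑ x ∈ D₂, z x ≤ Y) (hY₁ : Y ≤ ∑ x ∈ A, z x - ∑ x ∈ D₁, z x) :
    Flex H e A n Y := by
  obtain ⟨P, hP, hPc⟩ := exists_subset_card_eq (show 3 ≤ #(row A z f) by omega)
  have hsd : 3 ≤ #(row A z f \ P) := by
    rw [card_sdiff_of_subset hP]
    omega
  obtain ⟨K, hK', hKc⟩ := exists_subset_card_eq hsd
  have hK : K ⊆ row A z f := hK'.trans sdiff_subset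
  have hPK : Disjoint P K := by
    rw [disjoint_left]
    intro x hx hx'
    exact (mem_sdiff.1 (hK' hx')).2 hx
  obtain ⟨E₁, hE₁, hE₁c, hPE₁, hKE₁, hE₁s⟩ := exists_swap3 hP hK hPK hPc hKc hD₁ h₁ h₁'
  obtain ⟨E₂, hE₂, hE₂c, hPE₂, hKE₂, hE₂s⟩ := exists_swap3 hP hK hPK hPc hKc hD₂ h₂ h₂'
  have hPA : P ⊆ A := hP.trans (filter_subset _ _)
  have hKA : K ⊆ A := hK.trans (filter_subset _ _)
  have hn2 : 3 ≤ n := by have := h.hQ; omega
  have hc2 := h.hc
  set A' := A \ (P ∪ K) with hA'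
  have hPKc : #(P ∪ K) = 6 := by rw [card_union_of_disjoint hPK, hPc, hKc]
  have hA'c : #A' = (n - 3) + (c - 3) := by
    rw [hA', card_sdiff_of_subset (union_subset hPA hKA), hPKc, h.card]
    omega
  have hA'A : A' ⊆ A := sdiff_subset
  have hrow : ∀ i : ℤ, #(row A z i) ≤ #(row A' z i) + 6 := by
    intro i
    have h3 : row A z i ⊆ row A' z i ∪ (P ∪ K) := by
      intro x hx
      rw [mem_union]
      by_cases hx' : x ∈ P ∪ K
      · exact Or.inr hx'
      · left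
        have h4 := mem_filter.1 hx
        exact mem_filter.2 ⟨mem_sdiff.2 ⟨h4.1, hx'⟩, h4.2⟩
    have h4 := (card_le_card h3).trans (card_union_le _ _)
    omega
  have hout : ∀ d : ℕ, #(out A' z p q d) ≤ #(out A z p q d) := fun d =>
    card_le_card (filter_subset_filter _ hA'A)
  have hfill : Fill A' z (n - 3) := by
    refine fill_all (c := c - 3) (Q := Q) (p := p) (q := q) (i₀ := i₀) (i₁ := i₁) hA'c ?_ h.le₀
      h.lt h.le₁ ?_ ?_ ?_ ?_
    · have h3 := h.hQ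
      have h4 := hout 1
      omega
    · intro i hi hi'
      have h3 := h.rows i hi hi'
      have h4 := hrow i
      omega
    · have h3 := h.row₀
      have h4 := hrow i₀
      omega
    · have h3 := h.row₁
      have h4 := hrow i₁
      omega
    · intro x hx d hd hz
      obtain ⟨h3, h4⟩ := h.far x (hA'A hx) d hd hz
      refine ⟨h3, ?_⟩
      have h5 : (i₁ - i₀) * (#(out A' z p q d) : ℤ) ≤ (i₁ - i₀) * (#(out A z p q d) : ℤ) :=
        mul_le_mul_of_nonneg_left (by exact_mod_cast hout d) (by have := h.lt; omega)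
      have h6 : ((c - 3 : ℕ) : ℤ) = (c : ℤ) - 3 := by omega
      rw [h6]
      have h7 : (i₁ - i₀) * ((#(out A z p q d) : ℤ) + 3) =
        (i₁ - i₀) * (#(out A z p q d) : ℤ) + 3 * (i₁ - i₀) := by ring
      have h8 : (i₁ - i₀) * ((c : ℤ) - 3) = (i₁ - i₀) * (c : ℤ) - 3 * (i₁ - i₀) := by ring
      linarith
  -- the two extreme sets without the six elements
  have hsub : ∀ E : Finset G, E ⊆ A → #E = c → P ⊆ E → Disjoint K E →
      (A \ E) \ K ⊆ A' ∧ #((A \ E) \ K) = n - 3 ∧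
        ∑ x ∈ (A \ E) \ K, z x = ∑ x ∈ A, z x - ∑ x ∈ E, z x - 3 * f := by
    intro E hE hEc hPE hKE
    have hKE' : K ⊆ A \ E := by
      intro x hx
      exact mem_sdiff.2 ⟨hKA hx, fun hx' => disjoint_left.1 hKE hx hx'⟩
    refine ⟨?_, ?_, ?_⟩
    · intro x hx
      rw [mem_sdiff, mem_sdiff] at hx
      rw [hA', mem_sdiff, mem_union, not_or]
      exact ⟨hx.1.1, fun hx' => hx.1.2 (hPE hx'), hx.2⟩
    · rw [card_sdiff_of_subset hKE', card_sdiff_of_subset hE, hEc, hKc, h.card]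
      omega
    · have h3 := sum_sdiff (f := z) hKE'
      have h4 := sum_sdiff (f := z) hE
      have h5 : ∑ x ∈ K, z x = 3 * f := by
        rw [sum_congr rfl (g := fun _ => f) (fun x hx => (mem_filter.1 (hK hx)).2), sum_const,
          hKc, nsmul_eq_mul]
        norm_num
      linarith
  obtain ⟨hT₁, hT₁c, hT₁s⟩ := hsub E₁ hE₁ (hE₁c.trans hc₁) hPE₁ hKE₁
  obtain ⟨hT₂, hT₂c, hT₂s⟩ := hsub E₂ hE₂ (hE₂c.trans hc₂) hPE₂ hKE₂
  obtain ⟨T, hT, hTc, hTs⟩ := hfill _ hT₂ _ hT₁ hT₂c hT₁c (Y - 3 * f) (by linarith) (by linarith)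
  have hKT : Disjoint K T := by
    rw [disjoint_left]
    intro x hx hx'
    exact (mem_sdiff.1 (hT hx')).2 (mem_union_right _ hx)
  have hTA : T ⊆ A := hT.trans hA'A
  have hKT' : K ∪ T ⊆ A := union_subset hKA hTA
  have hzs : ∑ x ∈ K ∪ T, z x = Y := by
    rw [sum_union hKT, hTs, sum_congr rfl (g := fun _ => f)
      (fun x hx => (mem_filter.1 (hK hx)).2), sum_const, hKc, nsmul_eq_mul]
    push_cast
    ring
  rw [← hzs]
  refine flex_of_set3 h.lift h.nq h.fat hfat hKT' ?_ ?_ ?_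
  · rw [card_union_of_disjoint hKT, hKc, hTc]
    omega
  · rw [← hKc]
    refine card_le_card ?_
    intro x hx
    exact mem_filter.2 ⟨mem_union_left _ hx, (mem_filter.1 (hK hx)).2⟩
  · rw [← hPc, ← card_union_of_disjoint]
    · refine card_le_card (union_subset (filter_subset_filter _ hKT') hP)
    · rw [disjoint_left]
      intro x hx hx'
      rcases mem_union.1 (mem_filter.1 hx).1 with h3 | h3
      · exact disjoint_left.1 hPK hx' h3
      · exact (mem_sdiff.1 (hT h3)).2 (mem_union_left _ hx')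

/-- the flexible interval in numbers -/
theorem flx_num3 {G : Type*} [AddCommGroup G] [DecidableEq G] {H : AddSubgroup G} {e q₀ : G}
    {A : Finset G} {z : G → ℤ} {n c θ Q : ℕ} {p q i₀ i₁ : ℤ}
    (h : Ready3 H e q₀ A z n c θ Q p q i₀ i₁) {f i j u v : ℤ} (hpf : p ≤ f) (hfq : f ≤ q)
    (hfat : Nat.card H + θ ≤ 2 * #(row A z f)) {α α' β β' : ℕ}
    (hif : i ≠ f) (hui : u ≤ i) (huf : u ≤ f) (hc₁ : #(low A z u) + α + α' = c)
    (hα : α ≤ #(row A z i)) (hα₂ : 3 ≤ α') (hα' : α' + 3 ≤ #(row A z f))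
    (hjf : j ≠ f) (hjv : j ≤ v) (hfv : f ≤ v) (hc₂ : #(high A z v) + β + β' = c)
    (hβ : β ≤ #(row A z j)) (hβ₂ : 3 ≤ β') (hβ' : β' + 3 ≤ #(row A z f)) :
    ∀ Y : ℤ, ∑ x ∈ A, z x - (∑ x ∈ high A z v, z x + β * j + β' * f) ≤ Y →
      Y ≤ ∑ x ∈ A, z x - (∑ x ∈ low A z u, z x + α * i + α' * f) → Flex H e A n Y := by
  intro Y hY₂ hY₁
  obtain ⟨D₁, hD₁, hD₁c, _, hD₁f, hD₁s⟩ := exists_low A z hif hui huf hc₁ hα (by omega)
  obtain ⟨D₂, hD₂, hD₂c, _, hD₂f, hD₂s⟩ := exists_high A z hjf hjv hfv hc₂ hβ (by omega)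
  exact flx3 h hpf hfq hfat hD₁ hD₂ hD₁c hD₂c (by omega) (by omega) (by omega) (by omega)
    (by rw [hD₂s]; exact hY₂) (by rw [hD₁s]; exact hY₁)

end Pool.Agent.Lib.MPa7239a.RT
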