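import Pool.Agent.Lib.MP_a7239a_co.RK.ENDP
import Pool.Agent.Lib.MP_a7239a_co.RT.FLX3

/-!
# Theorem R, end game for `s ≥ 2`, `s ∣ t`, with `FatFull3`

As `RK.end_P`, but the flexible intervals stop three elements before the end. In the sharp cases
the missing values come from `flex_two`.
-/

set_option autoImplicit false

open Finset

namespace Pool.Agent.Lib.MPa7239a.RT

open Pool.Agent.Lib.MPa7239a.GC
open Pool.Agent.Lib.MPa7239a.RK
open Pool.Agent.Lib.MPa7239a.RG (FatFull3)

theorem readyP3 {G : Type*} [AddCommGroup G] [Finite G] [DecidableEq G] {H : AddSubgroup G}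
    {e q₀ : G} {A : Finset G} {z : G → ℤ} {m n c s o b E θ a a' Q : ℕ}
    (h : StrP H e q₀ A z m n c s o b E) (hFF : FatFull3 H θ)
    (N : NumP H A z m n c s o b E θ a a') (hQ : m = Q + E + 7) :
    Ready3 H e q₀ A z n c θ Q 0 b 0 b := by
  obtain ⟨ha, ha', few, s2, b1, mc, cm, mbig, cardH, le, one, two⟩ := N
  have hout : #(out A z 0 b 1) ≤ E := h.few
  have hn := h.hn
  have hmn : m ≤ n := by
    rw [hn]
    calc m = 1 * (m * 1) := by ring
      _ ≤ b * (m * s) := Nat.mul_le_mul b1 (Nat.mul_le_mul_left _ (by omega))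
  have hb' : (1 : ℤ) ≤ b := by exact_mod_cast b1
  refine ⟨h.card, h.nq, h.lift, hFF, by omega, by omega, le_rfl, by omega, le_rfl, ?_, ?_, ?_, ?_⟩
  · intro i h0 hi
    have := one i h0 hi
    omega
  · have := one 0 le_rfl (by omega)
    omega
  · have := one b (by omega) le_rfl
    omega
  · intro x hx d hd hxd
    have h1 := h.near x hx d hd (by simpa using hxd)
    rw [h.ho] at h1
    have h2 : #(out A z 0 b d) ≤ E := (out_mono A z 0 b hd).trans hout
    have h3 : b * (2 * (E + 5) + 40) ≤ b * m := Nat.mul_le_mul_left _ (by omega)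
    have h4 : b * (#(out A z 0 b d) + 3) ≤ b * (E + 3) := Nat.mul_le_mul_left _ (by omega)
    have h5 : b * m ≤ b * c := Nat.mul_le_mul_left _ mc
    have h6 : b * m = b * Q + b * E + b * 7 := by rw [hQ]; ring
    have h7 : b * (2 * (E + 5) + 40) = 2 * (b * E) + 50 * b := by ring
    have h8 : b * (E + 3) = b * E + 3 * b := by ring
    constructor
    · have : d ≤ b * Q := by omega
      have h9 : (d : ℤ) ≤ b * Q := by exact_mod_cast this
      linarith
    · have : d + b * (#(out A z 0 b d) + 3) ≤ b * c := by omega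
      have h9 : (d : ℤ) + b * (#(out A z 0 b d) + 3) ≤ b * c := by exact_mod_cast this
      linarith

/-- the numbers and the flexible intervals -/
theorem flxP3 {G : Type*} [AddCommGroup G] [Finite G] [DecidableEq G] {H : AddSubgroup G}
    {e q₀ : G} {A : Finset G} {z : G → ℤ} {m n c s o b E θ a a' Q : ℕ}
    (N : NumP H A z m n c s o b E θ a a') (hR : Ready3 H e q₀ A z n c θ Q 0 b 0 b)
    {f i j : ℤ} (h0f : 0 ≤ f) (hfb : f ≤ b) (hfat : m * s + θ ≤ 2 * #(row A z f))
    (h0i : 0 ≤ i) (hif : i ≠ f) (hjb : j ≤ b) (hjf : j ≠ f)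
    {α α' β β' : ℕ} (hα : α ≤ #(row A z i)) (h2α : 3 ≤ α') (hα' : α' ≤ c)
    (hβ : β ≤ #(row A z j)) (h2β : 3 ≤ β') (hβ' : β' ≤ c)
    (h₁ : a + α + α' = c) (h₂ : a' + β + β' = c)
    (hbig : m * s + θ + 4 * E + 20 ≤ 2 * #(row A z f)) (Y : ℤ)
    (hY₁ : ∑ x ∈ A, z x - (∑ x ∈ high A z b, z x + β * j + β' * f) ≤ Y)
    (hY₂ : Y ≤ ∑ x ∈ A, z x - (∑ x ∈ low A z 0, z x + α * i + α' * f)) : Flex H e A n Y := by
  obtain ⟨ha, ha', few, s2, b1, mc, cm, mbig, cardH, le, one, two⟩ := N
  have h3 : m * 2 ≤ m * s := Nat.mul_le_mul_left _ s2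
  have h4 : c + 3 ≤ #(row A z f) := by omega
  exact flx_num3 hR h0f hfb (by rw [cardH]; exact hfat) hif h0i h0f (by rw [ha]; exact h₁) hα
    h2α (by omega) hjf hjb hfb (by rw [ha']; exact h₂) hβ h2β (by omega) Y hY₁ hY₂

/-- rows `1, ..., b` big -/
theorem low_end3 {G : Type*} [AddCommGroup G] [Finite G] [DecidableEq G] {H : AddSubgroup G}
    {e q₀ : G} {A : Finset G} {z : G → ℤ} {m n c s o b E θ a a' Q : ℕ}
    (N : NumP H A z m n c s o b E θ a a') (hR : Ready3 H e q₀ A z n c θ Q 0 b 0 b)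
    (hbig : ∀ f : ℤ, 1 ≤ f → f ≤ b → m * s + θ + 4 * E + 20 ≤ 2 * #(row A z f))
    {α α' k' : ℕ} (hα : α ≤ #(row A z 0)) (h2 : 3 ≤ α') (hE : α' ≤ E + 3)
    (h₁ : a + α + α' = c) (h₂ : a' + k' = c) (Y : ℤ)
    (hY₁ : ∑ x ∈ A, z x - (∑ x ∈ high A z b, z x + b * k') ≤ Y)
    (hY₂ : Y ≤ ∑ x ∈ A, z x - (∑ x ∈ low A z 0, z x + α')) : Flex H e A n Y := by
  have N' := N
  obtain ⟨ha, ha', few, s2, b1, mc, cm, mbig, cardH, le, one, two⟩ := N'
  have hb' : (1 : ℤ) ≤ b := by exact_mod_cast b1
  have hSL := sum_low_le A z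
  have hSH := le_sum_high A z b
  have hg1 := hbig 1 le_rfl hb'
  have hgb := hbig b hb' le_rfl
  have hSH0 : 0 ≤ ∑ x ∈ high A z b, z x := le_trans (by positivity) hSH
  have hSL0 : ∑ x ∈ low A z 0, z x ≤ 0 := le_trans hSL (by simp)
  rcases Nat.eq_or_lt_of_le b1 with hb1 | hb2
  · subst hb1
    refine flxP3 N hR (f := 1) (i := 0) (j := 0) (α := α) (α' := α') (β := 0) (β' := k')
      (by omega) hb' (by omega) le_rfl (by omega) (by simp) (by omega) hα h2 (by omega)
      (by omega) (by omega) (by omega) h₁ (by omega) hg1 Y ?_ ?_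
    · push_cast at hY₁ ⊢
      linarith
    · push_cast at hY₂ ⊢
      linarith
  · obtain ⟨k2, hk2⟩ : ∃ k2, k' = k2 + 3 := ⟨k' - 3, by omega⟩
    have hb2' : (2 : ℤ) ≤ b := by exact_mod_cast hb2
    by_cases hY : Y ≤ ∑ x ∈ A, z x - (∑ x ∈ low A z 0, z x + α' * b)
    · refine flxP3 N hR (f := b) (i := 0) (j := 0) (α := α) (α' := α') (β := 0) (β' := k')
        (by omega) le_rfl (by omega) le_rfl (by omega) (by omega) (by omega) hα h2 (by omega)
        (by omega) (by omega) (by omega) h₁ (by omega) hgb Y ?_ ?_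
      · push_cast
        linarith
      · push_cast
        linarith
    · push Not at hY
      have hR1 : k2 ≤ #(row A z b) := by
        have h3 : m * 2 ≤ m * s := Nat.mul_le_mul_left _ s2
        omega
      refine flxP3 N hR (f := 1) (i := 0) (j := b) (α := α) (α' := α') (β := k2) (β' := 3)
        (by omega) hb' (by omega) le_rfl (by omega) le_rfl (by omega) hα h2 (by omega)
        hR1 (by omega) (by omega) h₁ (by omega) hg1 Y ?_ ?_
      · have h3 : (α' : ℤ) * b ≤ k2 * b := by
          exact_mod_cast Nat.mul_le_mul_right b (by omega : α' ≤ k2)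
        push_cast
        linarith
      · push_cast
        linarith

/-- rows `0, ..., b - 1` big -/
theorem high_end3 {G : Type*} [AddCommGroup G] [Finite G] [DecidableEq G] {H : AddSubgroup G}
    {e q₀ : G} {A : Finset G} {z : G → ℤ} {m n c s o b E θ a a' Q : ℕ}
    (N : NumP H A z m n c s o b E θ a a') (hR : Ready3 H e q₀ A z n c θ Q 0 b 0 b)
    (hbig : ∀ f : ℤ, 0 ≤ f → f < b → m * s + θ + 4 * E + 20 ≤ 2 * #(row A z f))
    {β β' k : ℕ} (hβ : β ≤ #(row A z b)) (h2 : 3 ≤ β') (hE : β' ≤ E + 3)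
    (h₁ : a' + β + β' = c) (h₂ : a + k = c) (Y : ℤ)
    (hY₁ : ∑ x ∈ A, z x - (∑ x ∈ high A z b, z x + b * (β + β')) + β' ≤ Y)
    (hY₂ : Y ≤ ∑ x ∈ A, z x - ∑ x ∈ low A z 0, z x) : Flex H e A n Y := by
  have N' := N
  obtain ⟨ha, ha', few, s2, b1, mc, cm, mbig, cardH, le, one, two⟩ := N'
  have hb' : (1 : ℤ) ≤ b := by exact_mod_cast b1
  have hSL := sum_low_le A z
  have hSH := le_sum_high A z b
  have hg0 := hbig 0 le_rfl (by omega)
  have hgb := hbig (b - 1) (by omega) (by omega)
  have hSH0 : 0 ≤ ∑ x ∈ high A z b, z x := le_trans (by positivity) hSH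
  have hSL0 : ∑ x ∈ low A z 0, z x ≤ 0 := le_trans hSL (by simp)
  rcases Nat.eq_or_lt_of_le b1 with hb1 | hb2
  · subst hb1
    refine flxP3 N hR (f := 0) (i := 1) (j := 1) (α := 0) (α' := k) (β := β) (β' := β')
      le_rfl (by omega) (by omega) (by omega) (by omega) (by simp) (by omega) (by omega)
      (by omega) (by omega) (by simpa using hβ) h2 (by omega) (by omega) h₁ hg0 Y ?_ ?_
    · push_cast at hY₁ ⊢
      linarith
    · push_cast at hY₂ ⊢
      linarith
  · obtain ⟨k2, hk2⟩ : ∃ k2, k = k2 + 3 := ⟨k - 3, by omega⟩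
    have hb2' : (2 : ℤ) ≤ b := by exact_mod_cast hb2
    by_cases hY : ∑ x ∈ A, z x - (∑ x ∈ high A z b, z x + β * b) ≤ Y
    · refine flxP3 N hR (f := 0) (i := b) (j := b) (α := 0) (α' := k) (β := β) (β' := β')
        le_rfl (by omega) (by omega) (by omega) (by omega) le_rfl (by omega) (by omega)
        (by omega) (by omega) hβ h2 (by omega) (by omega) h₁ hg0 Y ?_ ?_
      · push_cast
        linarith
      · push_cast
        linarith
    · push Not at hY
      have hR1 : k2 ≤ #(row A z 0) := by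
        have h3 : m * 2 ≤ m * s := Nat.mul_le_mul_left _ s2
        omega
      refine flxP3 N hR (f := b - 1) (i := 0) (j := b) (α := k2) (α' := 3) (β := β) (β' := β')
        (by omega) (by omega) (by omega) le_rfl (by omega) le_rfl (by omega) hR1 le_rfl
        (by omega) hβ h2 (by omega) (by omega) h₁ hgb Y ?_ ?_
      · push_cast at hY₁ ⊢
        linarith
      · have h3 : (3 : ℤ) * b ≤ β * b := by
          exact_mod_cast Nat.mul_le_mul_right b (by omega : 3 ≤ β)
        push_cast
        linarith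

/-- one value from the rows `b - 1` and `b` -/
theorem two_high {G : Type*} [AddCommGroup G] [Finite G] [DecidableEq G] {H : AddSubgroup G}
    {e q₀ : G} {A : Finset G} {z : G → ℤ} {m n c s o b E θ a a' : ℕ}
    (h : StrP H e q₀ A z m n c s o b E) (N : NumP H A z m n c s o b E θ a a') (ha1 : a ≤ 1)
    {k₀ j : ℕ} (hk : a' + (k₀ + j) = c) (hj : 1 ≤ j) (hj3 : j ≤ 3) (hk₀ : k₀ < #(row A z b)) :
    Flex H e A n (∑ x ∈ A, z x - (∑ x ∈ high A z b, z x + b * (k₀ + j)) + j) := by
  obtain ⟨ha, ha', few, s2, b1, mc, cm, mbig, cardH, le, one, two⟩ := N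
  have hb' : (1 : ℤ) ≤ b := by exact_mod_cast b1
  have h2 := two b (b - 1) (by omega) (by omega) le_rfl (by omega) (by omega)
  have h1 := one (b - 1) (by omega) (by omega)
  obtain ⟨D, hD, hDc, hDb, hDb', hsum⟩ := exists_high A z (c := c) (α := k₀)
    (β := j) (i := b) (f := b - 1) (u := b) (by omega) le_rfl (by omega) (by
      rw [ha']; omega) hk₀.le (by omega)
  have hf2 := flex_two h.card h.nq h.lift (i := b) (f := b - 1) (by omega) hD hDc
    (by omega) (by omega) (by omega) (by omega) (by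
      rw [cardH, hDb, hDb']
      have h3 := le_max_right k₀ (#(row A z b) - k₀)
      have h4 := le_max_right j (#(row A z (b - 1)) - j)
      omega)
  rw [hsum] at hf2
  have h5 : ∑ x ∈ A, z x - (∑ x ∈ high A z b, z x + (k₀ : ℤ) * b + (j : ℤ) * (b - 1)) =
      ∑ x ∈ A, z x - (∑ x ∈ high A z b, z x + b * (k₀ + j)) + j := by ring
  rwa [h5] at hf2

/-- one value from the rows `0` and `1` -/
theorem two_low {G : Type*} [AddCommGroup G] [Finite G] [DecidableEq G] {H : AddSubgroup G}
    {e q₀ : G} {A : Finset G} {z : G → ℤ} {m n c s o b E θ a a' : ℕ}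
    (h : StrP H e q₀ A z m n c s o b E) (N : NumP H A z m n c s o b E θ a a') (ha1 : a' ≤ 1)
    {k₀ j : ℕ} (hk : a + (k₀ + j) = c) (hj : 1 ≤ j) (hj3 : j ≤ 3) (hk₀ : k₀ < #(row A z 0)) :
    Flex H e A n (∑ x ∈ A, z x - (∑ x ∈ low A z 0, z x + j)) := by
  obtain ⟨ha, ha', few, s2, b1, mc, cm, mbig, cardH, le, one, two⟩ := N
  have hb' : (1 : ℤ) ≤ b := by exact_mod_cast b1
  have h2 := two 0 1 (by omega) le_rfl (by omega) (by omega) (by omega)
  have h1 := one 1 (by omega) (by omega)
  obtain ⟨D, hD, hDc, hDb, hDb', hsum⟩ := exists_low A z (c := c) (α := k₀)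
    (β := j) (i := 0) (f := 1) (u := 0) (by omega) le_rfl (by omega) (by
      rw [ha]; omega) hk₀.le (by omega)
  have hf2 := flex_two h.card h.nq h.lift (i := 0) (f := 1) (by omega) hD hDc
    (by omega) (by omega) (by omega) (by omega) (by
      rw [cardH, hDb, hDb']
      have h3 := le_max_right k₀ (#(row A z 0) - k₀)
      have h4 := le_max_right j (#(row A z 1) - j)
      omega)
  rw [hsum] at hf2
  have h5 : ∑ x ∈ A, z x - (∑ x ∈ low A z 0, z x + (k₀ : ℤ) * 0 + (j : ℤ) * 1) =
      ∑ x ∈ A, z x - (∑ x ∈ low A z 0, z x + j) := by ring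
  rwa [h5] at hf2

/-- MODULE ENDP3 -/
theorem end_P3 {G : Type*} [AddCommGroup G] [Finite G] [DecidableEq G] {H : AddSubgroup G}
    {e q₀ : G} {A : Finset G} {z : G → ℤ} {m n c s o b E θ : ℕ}
    (h : StrP H e q₀ A z m n c s o b E) (hs : 2 ≤ s) (hFF : FatFull3 H θ)
    (hm : 100 * (b + 1) * (E + θ + 10) ≤ m) : Hit A n 0 := by
  have N := numP h hs hm
  set a := #(low A z 0) with ha0
  set a' := #(high A z b) with ha0'
  have N' := N
  obtain ⟨ha, ha', few, s2, b1, mc, cm, mbig, cardH, le, one, two⟩ := N'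
  obtain ⟨Q, hQ⟩ : ∃ Q, m = Q + E + 7 := ⟨m - E - 7, by omega⟩
  have hR := readyP3 h hFF N hQ
  have hoe := nsmul_mem_of_order h.order
  have ho := h.ho
  have hms : m * 2 ≤ m * s := Nat.mul_le_mul_left _ s2
  have hb' : (1 : ℤ) ≤ b := by exact_mod_cast b1
  have hSL := sum_low_le A z
  have hSH := le_sum_high A z b
  rw [← ha0] at hSL
  rw [← ha0'] at hSH
  obtain ⟨k, hk⟩ : ∃ k, a + k = c := ⟨c - a, by omega⟩
  obtain ⟨k', hk'⟩ : ∃ k', a' + k' = c := ⟨c - a', by omega⟩
  have ho0 : 0 < o := by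
    rw [ho]; exact Nat.mul_pos (by omega) (by omega)
  have hbc : (b : ℤ) * m ≤ b * c := by exact_mod_cast Nat.mul_le_mul_left b mc
  have hbc1 : m < c → (b : ℤ) * m + 1 ≤ b * c := by
    intro hc
    have : b * (m + 1) ≤ b * c := Nat.mul_le_mul_left b hc
    have h3 : ((b * (m + 1) : ℕ) : ℤ) ≤ ((b * c : ℕ) : ℤ) := by exact_mod_cast this
    push_cast at h3
    linarith
  have hbk : (b : ℤ) * a' + b * k' = b * c := by
    have : (a' : ℤ) + k' = c := by exact_mod_cast hk'
    rw [← this]; ring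
  have hoz : (o : ℤ) = b * m := by rw [ho]; push_cast; ring
  have hR0 := one 0 le_rfl (by omega)
  have hRb := one b (by omega) le_rfl
  have key : (b : ℤ) * c + a + a' ≤ ∑ x ∈ high A z b, z x + b * k' - ∑ x ∈ low A z 0, z x := by
    have : ((b : ℤ) + 1) * a' = b * a' + a' := by ring
    linarith
  have ha00 : (0 : ℤ) ≤ a := by positivity
  have ha00' : (0 : ℤ) ≤ a' := by positivity
  by_cases B0 : m * s + θ + 4 * E + 20 ≤ 2 * #(row A z 0)
  · by_cases Bb : m * s + θ + 4 * E + 20 ≤ 2 * #(row A z b)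
    · -- both ends big
      refine hit_of_flex ho0 hoe (Y₁ := ∑ x ∈ A, z x - (∑ x ∈ high A z b, z x + b * k'))
        (Y₂ := ∑ x ∈ A, z x - ∑ x ∈ low A z 0, z x) (by linarith) ?_
      intro Y hY₁ hY₂
      obtain ⟨k2, hk2⟩ : ∃ k2, k = k2 + 3 := ⟨k - 3, by omega⟩
      obtain ⟨k2', hk2'⟩ : ∃ k2', k' = k2' + 3 := ⟨k' - 3, by omega⟩
      have hSH0 : 0 ≤ ∑ x ∈ high A z b, z x := le_trans (by positivity) hSH
      have hSL0 : ∑ x ∈ low A z 0, z x ≤ 0 := le_trans hSL (by simp)
      by_cases hY : Y ≤ ∑ x ∈ A, z x - (∑ x ∈ low A z 0, z x + 3 * b)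
      · refine flxP3 N hR (f := b) (i := 0) (j := 0) (α := k2) (α' := 3) (β := 0) (β' := k')
          (by omega) le_rfl (by omega) le_rfl (by omega) (by omega) (by omega) (by omega) le_rfl
          (by omega) (by omega) (by omega) (by omega) (by omega) (by omega) Bb Y ?_ ?_
        · push_cast
          linarith
        · push_cast
          linarith
      · push Not at hY
        refine flxP3 N hR (f := 0) (i := b) (j := b) (α := 0) (α' := k) (β := k2') (β' := 3)
          le_rfl (by omega) (by omega) (by omega) (by omega) le_rfl (by omega) (by omega)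
          (by omega) (by omega) (by omega) le_rfl (by omega) (by omega) (by omega) B0 Y ?_ ?_
        · have h3 : (3 : ℤ) * b ≤ k2' * b := by
            exact_mod_cast Nat.mul_le_mul_right b (by omega : 3 ≤ k2')
          push_cast
          linarith
        · push_cast
          linarith
    · -- row `b` not big
      have hbig : ∀ f : ℤ, 0 ≤ f → f < b → m * s + θ + 4 * E + 20 ≤ 2 * #(row A z f) := by
        intro f h0 hf
        have := two f b (by omega) h0 hf.le (by omega) le_rfl
        omega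
      by_cases hg : #(row A z b) + 1 < k'
      · -- `a ≥ k' - R_b`
        obtain ⟨r, hr⟩ : ∃ r, #(row A z b) = r + 1 := ⟨#(row A z b) - 1, by omega⟩
        obtain ⟨β', hβ'⟩ : ∃ β', k' = r + β' := ⟨k' - r, by omega⟩
        refine hit_of_flex ho0 hoe
          (Y₁ := ∑ x ∈ A, z x - (∑ x ∈ high A z b, z x + b * (r + β')) + β')
          (Y₂ := ∑ x ∈ A, z x - ∑ x ∈ low A z 0, z x) ?_ ?_
        · have h1 : (b : ℤ) * k' = b * (r + β') := by rw [hβ']; push_cast; ring
          have h2 : (β' : ℤ) ≤ a + 1 := by exact_mod_cast (by omega : β' ≤ a + 1)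
          linarith
        · intro Y hY₁ hY₂
          exact high_end3 N hR hbig (β := r) (β' := β') (k := k) (by omega) (by omega) (by omega)
            (by omega) hk Y hY₁ hY₂
      · obtain ⟨k2', hk2'⟩ : ∃ k2', k' = k2' + 3 := ⟨k' - 3, by omega⟩
        have hfl : ∀ Y : ℤ, ∑ x ∈ A, z x - (∑ x ∈ high A z b, z x + b * (k2' + 3)) + 3 ≤ Y →
            Y ≤ ∑ x ∈ A, z x - ∑ x ∈ low A z 0, z x → Flex H e A n Y := by
          intro Y hY₁ hY₂
          exact high_end3 N hR hbig (β := k2') (β' := 3) (k := k) (by omega) le_rfl (by omega)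
            (by omega) hk Y (by push_cast at hY₁ ⊢; exact hY₁) hY₂
        have h1 : (b : ℤ) * k' = b * (k2' + 3) := by rw [hk2']; push_cast; ring
        by_cases hc : 2 ≤ a + a' ∨ (1 ≤ a + a' ∧ m < c)
        · refine hit_of_flex ho0 hoe ?_ hfl
          rcases hc with hc | ⟨hc, hc'⟩
          · have h2 : (2 : ℤ) ≤ a + a' := by exact_mod_cast hc
            linarith
          · have h2 : (1 : ℤ) ≤ a + a' := by exact_mod_cast hc
            have h3 := hbc1 hc'
            linarith
        · have ha1 : a ≤ 1 := by omega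
          -- the value `+ 2`
          have hv2 := two_high h N ha1 (k₀ := k2' + 1) (j := 2) (by omega) (by omega) (by omega)
            (by omega)
          have hfl2 : ∀ Y : ℤ, ∑ x ∈ A, z x - (∑ x ∈ high A z b, z x + b * (k2' + 3)) + 2 ≤ Y →
              Y ≤ ∑ x ∈ A, z x - ∑ x ∈ low A z 0, z x → Flex H e A n Y := by
            intro Y hY₁ hY₂
            rcases eq_or_lt_of_le hY₁ with h5 | h5
            · rw [← h5]
              push_cast at hv2
              convert hv2 using 1
              ring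
            · exact hfl Y (by linarith) hY₂
          by_cases hc2 : 1 ≤ a + a' ∨ m < c
          · refine hit_of_flex ho0 hoe ?_ hfl2
            rcases hc2 with hc2 | hc2
            · have h2 : (1 : ℤ) ≤ a + a' := by exact_mod_cast hc2
              linarith
            · have h3 := hbc1 hc2
              linarith
          · have hv1 := two_high h N ha1 (k₀ := k2' + 2) (j := 1) (by omega) (by omega) (by omega)
              (by omega)
            refine hit_of_flex ho0 hoe
              (Y₁ := ∑ x ∈ A, z x - (∑ x ∈ high A z b, z x + b * (k2' + 3)) + 1)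
              (Y₂ := ∑ x ∈ A, z x - ∑ x ∈ low A z 0, z x) (by linarith) ?_
            intro Y hY₁ hY₂
            rcases eq_or_lt_of_le hY₁ with h5 | h5
            · rw [← h5]
              push_cast at hv1
              convert hv1 using 1
              ring
            · exact hfl2 Y (by linarith) hY₂
  · -- row `0` not big
    have hbig : ∀ f : ℤ, 1 ≤ f → f ≤ b → m * s + θ + 4 * E + 20 ≤ 2 * #(row A z f) := by
      intro f h1 hf
      have := two 0 f (by omega) le_rfl (by omega) (by omega) hf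
      omega
    by_cases hg : #(row A z 0) + 1 < k
    · obtain ⟨r, hr⟩ : ∃ r, #(row A z 0) = r + 1 := ⟨#(row A z 0) - 1, by omega⟩
      obtain ⟨α', hα'⟩ : ∃ α', k = r + α' := ⟨k - r, by omega⟩
      refine hit_of_flex ho0 hoe (Y₁ := ∑ x ∈ A, z x - (∑ x ∈ high A z b, z x + b * k'))
        (Y₂ := ∑ x ∈ A, z x - (∑ x ∈ low A z 0, z x + α')) ?_ ?_
      · have h2 : (α' : ℤ) ≤ a' + 1 := by exact_mod_cast (by omega : α' ≤ a' + 1)
        linarith
      · intro Y hY₁ hY₂
        exact low_end3 N hR hbig (α := r) (α' := α') (k' := k') (by omega) (by omega) (by omega)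
          (by omega) hk' Y hY₁ hY₂
    · obtain ⟨k2, hk2⟩ : ∃ k2, k = k2 + 3 := ⟨k - 3, by omega⟩
      have hfl : ∀ Y : ℤ, ∑ x ∈ A, z x - (∑ x ∈ high A z b, z x + b * k') ≤ Y →
          Y ≤ ∑ x ∈ A, z x - (∑ x ∈ low A z 0, z x + 3) → Flex H e A n Y := by
        intro Y hY₁ hY₂
        exact low_end3 N hR hbig (α := k2) (α' := 3) (k' := k') (by omega) le_rfl (by omega)
          (by omega) hk' Y hY₁ (by push_cast; exact hY₂)
      by_cases hc : 2 ≤ a + a' ∨ (1 ≤ a + a' ∧ m < c)
      · refine hit_of_flex ho0 hoe ?_ hfl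
        rcases hc with hc | ⟨hc, hc'⟩
        · have h2 : (2 : ℤ) ≤ a + a' := by exact_mod_cast hc
          linarith
        · have h2 : (1 : ℤ) ≤ a + a' := by exact_mod_cast hc
          have h3 := hbc1 hc'
          linarith
      · have ha1 : a' ≤ 1 := by omega
        have hv2 := two_low h N ha1 (k₀ := k2 + 1) (j := 2) (by omega) (by omega) (by omega)
          (by omega)
        have hfl2 : ∀ Y : ℤ, ∑ x ∈ A, z x - (∑ x ∈ high A z b, z x + b * k') ≤ Y →
            Y ≤ ∑ x ∈ A, z x - (∑ x ∈ low A z 0, z x + 2) → Flex H e A n Y := by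
          intro Y hY₁ hY₂
          rcases eq_or_lt_of_le hY₂ with h5 | h5
          · rw [h5]
            push_cast at hv2
            exact hv2
          · exact hfl Y hY₁ (by linarith)
        by_cases hc2 : 1 ≤ a + a' ∨ m < c
        · refine hit_of_flex ho0 hoe ?_ hfl2
          rcases hc2 with hc2 | hc2
          · have h2 : (1 : ℤ) ≤ a + a' := by exact_mod_cast hc2
            linarith
          · have h3 := hbc1 hc2
            linarith
        · have hv1 := two_low h N ha1 (k₀ := k2 + 2) (j := 1) (by omega) (by omega) (by omega)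
            (by omega)
          refine hit_of_flex ho0 hoe (Y₁ := ∑ x ∈ A, z x - (∑ x ∈ high A z b, z x + b * k'))
            (Y₂ := ∑ x ∈ A, z x - (∑ x ∈ low A z 0, z x + 1)) (by linarith) ?_
          intro Y hY₁ hY₂
          rcases eq_or_lt_of_le hY₂ with h5 | h5
          · rw [h5]
            push_cast at hv1
            exact hv1
          · exact hfl2 Y hY₁ (by linarith)

end Pool.Agent.Lib.MPa7239a.RT
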