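import Pool.Agent.Lib.MP_a7239a_co.RK.ENDR
import Pool.Agent.Lib.MP_a7239a_co.RT.FLX3
import Pool.Agent.Lib.MP_a7239a_co.RT.STRR3

/-!
# The end of the argument for `t = b * s + ρ`, `1 ≤ ρ < s`, with `FatFull3`
-/

set_option autoImplicit false

open Finset

namespace Pool.Agent.Lib.MPa7239a.RT

open Pool.Agent.Lib.MPa7239a.GC
open Pool.Agent.Lib.MPa7239a.RK
open Pool.Agent.Lib.MPa7239a.RG (FatFull3)

variable {G : Type*} [AddCommGroup G] [Finite G] [DecidableEq G] {H : AddSubgroup G} {e q₀ : G}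
  {A : Finset G} {z : G → ℤ} {m n c s o b ρ E θ : ℕ}

omit [DecidableEq G] in
theorem ready3 (h : StrR H e q₀ A z m n c s o b ρ E) (hf3 : Far3 A z b c) (hFF : FatFull3 H θ)
    (hm : 100 * s * (b + 1) * (E + θ + 10) ≤ m) :
    Ready3 H e q₀ A z n c θ m 0 b 0 b := by
  obtain ⟨r, h2, h3, h5, h6, h7⟩ := h.numbers hm
  have hb := h.hb
  have hmc := h.mc
  have h9 : 1000 ≤ 100 * (b + 1) * (E + θ + 10) := by
    calc 1000 = 100 * 1 * 10 := by norm_num
      _ ≤ _ := Nat.mul_le_mul (Nat.mul_le_mul_left _ (by omega)) (by omega)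
  have h10 : 100 * (E + 10) ≤ 100 * (b + 1) * (E + θ + 10) := by
    calc 100 * (E + 10) = 100 * 1 * (E + 10) := by ring
      _ ≤ _ := Nat.mul_le_mul (Nat.mul_le_mul_left _ (by omega)) (by omega)
  have hrow : ∀ i : ℤ, 0 ≤ i → i ≤ b → m + 7 ≤ #(row A z i) := by
    intro i hi0 hib
    have := h.row_big h3 h5 h7 hi0 hib
    omega
  have hs2 : 2 ≤ s := by have := h.hρ; have := h.hρs; omega
  have hn3 : 3 * m ≤ n := by
    rw [h.hn]
    have h11 : 1 * (m * 2) ≤ b * (m * s) := Nat.mul_le_mul hb (Nat.mul_le_mul_left _ hs2)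
    have h12 : m * 1 ≤ m * ρ := Nat.mul_le_mul_left _ h.hρ
    omega
  refine ⟨h.card, h.nq, h.lift, hFF, ?_, by omega, le_rfl, by exact_mod_cast hb, le_rfl, ?_, ?_, ?_, ?_⟩
  · rw [card_out A z (by omega)]
    omega
  · intro i hi0 hib
    have := hrow i hi0 hib
    omega
  · exact hrow 0 le_rfl (by omega)
  · exact hrow b (by omega) le_rfl
  · intro x hx d hd h1
    obtain ⟨h12, -⟩ := h.near x hx d hd h1
    have h13 := hf3 x hx d hd h1
    have h14 : (2 * d : ℕ) ≤ b * m + r + 10 := by omega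
    have h15 : m ≤ b * m := Nat.le_mul_of_pos_left m hb
    have h16 : d ≤ b * m := by omega
    have h17 : (d : ℤ) ≤ (b : ℤ) * (m : ℤ) := by exact_mod_cast h16
    have h18 : (d : ℤ) + (b : ℤ) * ((#(out A z 0 b d) : ℤ) + 3) ≤ (b : ℤ) * (c : ℤ) := by
      exact_mod_cast h13
    refine ⟨?_, ?_⟩
    · rw [sub_self, sub_zero, add_zero, add_zero]
      exact h17
    · rw [sub_self, sub_zero, add_zero, add_zero]
      exact h18

/-- the flexible interval of row `b` -/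
theorem flex_b3 (h : StrR H e q₀ A z m n c s o b ρ E) (hf3 : Far3 A z b c) (hFF : FatFull3 H θ)
    (hm : 100 * s * (b + 1) * (E + θ + 10) ≤ m) (hfb : Nat.card H + θ ≤ 2 * #(row A z b)) {Y : ℤ}
    (h1 : ∑ x ∈ A, z x - (∑ x ∈ high A z b, z x + b * (c - #(high A z b) : ℕ)) ≤ Y)
    (h2 : Y ≤ ∑ x ∈ A, z x - (∑ x ∈ low A z 0, z x + 3 * b)) : Flex H e A n Y := by
  obtain ⟨r, h3, h4, h5, h6, h7⟩ := h.numbers hm
  have hb := h.hb
  have hmc := h.mc
  have h9 : 2 * E + 1000 ≤ 100 * (b + 1) * (E + θ + 10) := by nlinarith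
  have hR0 := h.row_big h4 h5 h7 (i := 0) le_rfl (by omega)
  have hRb := h.row_big h4 h5 h7 (i := b) (by omega) le_rfl
  refine flx_num3 (ready3 h hf3 hFF hm) (f := b) (i := 0) (j := 0) (u := 0) (v := b) (by omega)
    le_rfl hfb (α := c - #(low A z 0) - 3) (α' := 3) (β := 0) (β' := c - #(high A z b))
    (by omega) le_rfl (by omega) (by omega) (by omega) le_rfl (by omega) (by omega) (by omega)
    le_rfl (by omega) (by omega) (by omega) (by omega) Y ?_ ?_
  · refine le_trans (le_of_eq ?_) h1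
    push_cast
    ring
  · refine h2.trans (le_of_eq ?_)
    push_cast
    ring

/-- the flexible interval of rows `0` and `b` -/
theorem flex_0b3 (h : StrR H e q₀ A z m n c s o b ρ E) (hf3 : Far3 A z b c) (hFF : FatFull3 H θ)
    (hm : 100 * s * (b + 1) * (E + θ + 10) ≤ m) (hfb : Nat.card H + θ ≤ 2 * #(row A z b))
    (hf0 : Nat.card H + θ ≤ 2 * #(row A z 0)) {Y : ℤ}
    (h1 : ∑ x ∈ A, z x - (∑ x ∈ high A z b, z x + b * (c - #(high A z b) : ℕ)) ≤ Y)
    (h2 : Y ≤ ∑ x ∈ A, z x - ∑ x ∈ low A z 0, z x) : Flex H e A n Y := by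
  by_cases h2' : Y ≤ ∑ x ∈ A, z x - (∑ x ∈ low A z 0, z x + 3 * b)
  · exact flex_b3 h hf3 hFF hm hfb h1 h2'
  obtain ⟨r, h3, h4, h5, h6, h7⟩ := h.numbers hm
  have hb := h.hb
  have hmc := h.mc
  have h9 : 2 * E + 1000 ≤ 100 * (b + 1) * (E + θ + 10) := by nlinarith
  have hR0 := h.row_big h4 h5 h7 (i := 0) le_rfl (by omega)
  have hRb := h.row_big h4 h5 h7 (i := b) (by omega) le_rfl
  have hhi := sum_high_nonneg (A := A) (z := z) (b := b)
  have hlo := sum_low_nonpos (A := A) (z := z)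
  have hbc : (b : ℤ) * 3 ≤ b * (c - #(high A z b) - 3 : ℕ) := by
    exact_mod_cast Nat.mul_le_mul_left b (show 3 ≤ c - #(high A z b) - 3 by omega)
  push Not at h2'
  refine flx_num3 (ready3 h hf3 hFF hm) (f := 0) (i := b) (j := b) (u := 0) (v := b) le_rfl
    (by omega) hf0 (α := 0) (α' := c - #(low A z 0)) (β := c - #(high A z b) - 3) (β' := 3)
    (by omega) (by omega) (by omega) (by omega) (by omega) (by omega) (by omega) (by omega)
    (by omega) (by omega) (by omega) (by omega) le_rfl (by omega) Y ?_ ?_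
  · push_cast at h2' hbc ⊢
    nlinarith
  · refine h2.trans (le_of_eq ?_)
    push_cast
    ring

/-- the two values next to the end, from rows `0` and `1` (row `1` exists, whatever its size) -/
theorem flex_end (h : StrR H e q₀ A z m n c s o b ρ E)
    (hm : 100 * s * (b + 1) * (E + θ + 10) ≤ m) {j : ℕ} (hj1 : 1 ≤ j) (hj2 : j ≤ 2) :
    Flex H e A n (∑ x ∈ A, z x - (∑ x ∈ low A z 0, z x + j)) := by
  obtain ⟨r, h3, h4, h5, h6, h7⟩ := h.numbers hm
  have hb := h.hb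
  have hmc := h.mc
  have h9 : 2 * E + 1000 ≤ 100 * (b + 1) * (E + θ + 10) := by nlinarith
  have hR0 := h.row_big h4 h5 h7 (i := 0) le_rfl (by omega)
  have hR1 := h.row_big h4 h5 h7 (i := 1) (by omega) (by omega)
  obtain ⟨D, hD, hDc, hr0, hr1, hs'⟩ := exists_low A z (c := c)
    (α := c - #(low A z 0) - j) (β := j) (i := 0) (f := 1) (u := 0) (by omega) le_rfl
    (by omega) (by omega) (by omega) (by omega)
  have h14 : ∑ x ∈ low A z 0, z x + (j : ℤ) = ∑ x ∈ D, z x := by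
    rw [hs']
    ring
  rw [h14]
  have h15 := rows_ge (b := b) h.lift (i := 0) (j := 1) le_rfl (by omega) (by omega)
    (by exact_mod_cast hb) (by omega)
  rw [h.card, h.cardH, h.hn] at h15
  have h16 : b * (m * s) = (b - 1) * (m * s) + m * s := by
    obtain ⟨b', hb'⟩ : ∃ b', b = b' + 1 := ⟨b - 1, by omega⟩
    rw [hb', Nat.add_sub_cancel]
    ring
  have h17 : m * 1 ≤ m * ρ := Nat.mul_le_mul_left _ h.hρ
  refine flex_two h.card h.nq h.lift (i := 0) (f := 1) (by omega) hD hDc ?_ ?_ ?_ ?_ ?_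
  · rw [hr0]; omega
  · rw [hr0]; omega
  · rw [hr1]; omega
  · rw [hr1]; omega
  · rw [hr0, hr1, h.cardH]
    have h18 := le_max_right (c - #(low A z 0) - j) (#(row A z 0) - (c - #(low A z 0) - j))
    have h19 := le_max_right j (#(row A z 1) - j)
    omega

/-- the flexible interval of rows `1` and `b`: all but one value -/
theorem flex_1b3' (h : StrR H e q₀ A z m n c s o b ρ E) (hf3 : Far3 A z b c) (hFF : FatFull3 H θ)
    (hm : 100 * s * (b + 1) * (E + θ + 10) ≤ m) (hfb : Nat.card H + θ ≤ 2 * #(row A z b))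
    (hf1 : Nat.card H + θ ≤ 2 * #(row A z 1)) {Y : ℤ}
    (h1 : ∑ x ∈ A, z x - (∑ x ∈ high A z b, z x + b * (c - #(high A z b) : ℕ)) ≤ Y)
    (h2 : Y ≤ ∑ x ∈ A, z x - (∑ x ∈ low A z 0, z x + 1)) : Flex H e A n Y := by
  by_cases h2' : Y ≤ ∑ x ∈ A, z x - (∑ x ∈ low A z 0, z x + 3 * b)
  · exact flex_b3 h hf3 hFF hm hfb h1 h2'
  by_cases h21 : Y = ∑ x ∈ A, z x - (∑ x ∈ low A z 0, z x + 1)
  · rw [h21]
    exact flex_end h hm (j := 1) le_rfl (by omega)
  by_cases h22 : Y = ∑ x ∈ A, z x - (∑ x ∈ low A z 0, z x + 2)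
  · rw [h22]
    exact flex_end h hm (j := 2) (by omega) le_rfl
  have h23 : Y ≤ ∑ x ∈ A, z x - (∑ x ∈ low A z 0, z x + 3) := by omega
  have hb := h.hb
  have hb2 : b ≠ 1 := by
    rintro rfl
    apply h2'
    push_cast
    linarith
  obtain ⟨r, h3, h4, h5, h6, h7⟩ := h.numbers hm
  have hmc := h.mc
  have h9 : 2 * E + 1000 ≤ 100 * (b + 1) * (E + θ + 10) := by nlinarith
  have hR0 := h.row_big h4 h5 h7 (i := 0) le_rfl (by omega)
  have hR1 := h.row_big h4 h5 h7 (i := 1) (by omega) (by omega)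
  have hRb := h.row_big h4 h5 h7 (i := b) (by omega) le_rfl
  have hhi := sum_high_nonneg (A := A) (z := z) (b := b)
  have hlo := sum_low_nonpos (A := A) (z := z)
  have hbc : (b : ℤ) * 3 ≤ b * (c - #(high A z b) - 3 : ℕ) := by
    exact_mod_cast Nat.mul_le_mul_left b (show 3 ≤ c - #(high A z b) - 3 by omega)
  push Not at h2'
  refine flx_num3 (ready3 h hf3 hFF hm) (f := 1) (i := 0) (j := b) (u := 0) (v := b) (by omega)
    (by omega) hf1 (α := c - #(low A z 0) - 3) (α' := 3) (β := c - #(high A z b) - 3) (β' := 3)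
    (by omega) (by omega) (by omega) (by omega) (by omega) (by omega) (by omega) (by omega)
    (by omega) (by omega) (by omega) (by omega) le_rfl (by omega) Y ?_ ?_
  · push_cast at h2' hbc ⊢
    nlinarith
  · refine h23.trans (le_of_eq ?_)
    push_cast
    ring

/-- the flexible interval of rows `1` and `b` -/
theorem flex_1b3 (h : StrR H e q₀ A z m n c s o b ρ E) (hf3 : Far3 A z b c) (hFF : FatFull3 H θ)
    (hm : 100 * s * (b + 1) * (E + θ + 10) ≤ m) (hfb : Nat.card H + θ ≤ 2 * #(row A z b))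
    (hf1 : Nat.card H + θ ≤ 2 * #(row A z 1)) {Y : ℤ}
    (h1 : ∑ x ∈ A, z x - (∑ x ∈ high A z b, z x + b * (c - #(high A z b) : ℕ)) ≤ Y)
    (h2 : Y ≤ ∑ x ∈ A, z x - (∑ x ∈ low A z 0, z x + 2)) : Flex H e A n Y :=
  flex_1b3' h hf3 hFF hm hfb hf1 h1 (by linarith)

/-- the case that row `b` is fat -/
theorem hit_of_fat3 (h : StrR H e q₀ A z m n c s o b ρ E) (hf3 : Far3 A z b c) (hFF : FatFull3 H θ)
    (hm : 100 * s * (b + 1) * (E + θ + 10) ≤ m)
    (hcyc : ∀ x ∈ A, ∃ T ⊆ A.erase x, #T = n ∧ ∑ y ∈ T, y ∈ H)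
    (hfb : Nat.card H + θ ≤ 2 * #(row A z b)) : Hit A n 0 := by
  obtain ⟨r, h3, h4, h5, h6, h7⟩ := h.numbers hm
  have hb := h.hb
  have hmc := h.mc
  have h9 : 2 * E + 1000 ≤ 100 * (b + 1) * (E + θ + 10) := by nlinarith
  have hR0 := h.row_big h4 h5 h7 (i := 0) le_rfl (by omega)
  have hRb := h.row_big h4 h5 h7 (i := b) (by omega) le_rfl
  have hoe := order_smul_mem h.order
  -- the set of `n` elements omitting `x`
  have key : ∀ x ∈ A, ∃ D : Finset G, D ⊆ A ∧ #D = c ∧ x ∈ D ∧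
      (Flex H e A n (∑ x ∈ A, z x - ∑ x ∈ D, z x) → Hit A n 0) := by
    intro x hx
    obtain ⟨T, hT, hTc, hTs⟩ := hcyc x hx
    have hTA : T ⊆ A := hT.trans (erase_subset _ _)
    refine ⟨A \ T, sdiff_subset, ?_, ?_, ?_⟩
    · rw [card_sdiff_of_subset hTA, h.card, hTc]
      omega
    · rw [mem_sdiff]
      exact ⟨hx, fun h8 => by
        have := hT h8
        rw [mem_erase] at this
        exact this.1 rfl⟩
    · intro hflex
      obtain ⟨k, hk⟩ := dvd_of_sum_mem h.nq h.lift h.order hTA hTc hTs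
      have h8 := sum_sdiff (f := z) hTA
      have h10 : ∑ x ∈ A, z x - ∑ x ∈ A \ T, z x = k * o := by
        rw [← hk]
        omega
      rw [h10] at hflex
      exact hit_of_flex_mul hoe hflex
  have hup : ∀ D ⊆ A, #D = c → ∑ x ∈ D, z x ≤
      ∑ x ∈ high A z b, z x + b * (c - #(high A z b) : ℕ) := fun D hD hDc =>
    sum_le_high hD hDc (by omega)
  -- an element of row `b`
  have h8 : 0 < #(row A z b) := by omega
  obtain ⟨x, hx⟩ := card_pos.1 h8
  rw [mem_row] at hx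
  obtain ⟨D, hD, hDc, hxD, hhit⟩ := key x hx.1
  apply hhit
  have h10 := hup D hD hDc
  have h11 := sum_ge_low_of_mem (z := z) hD hxD (by omega)
  by_cases hf0 : Nat.card H + θ ≤ 2 * #(row A z 0)
  · exact flex_0b3 h hf3 hFF hm hfb hf0 (by omega) (by omega)
  · have hf1 : Nat.card H + θ ≤ 2 * #(row A z 1) :=
      h.fat_or hm le_rfl (by omega) (by omega) (by exact_mod_cast hb) (by omega) hf0
    exact flex_1b3' h hf3 hFF hm hfb hf1 (by omega) (by omega)

/-- MODULE ENDR3, part 1 -/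
theorem end_R3 (h : StrR H e q₀ A z m n c s o b ρ E) (hf3 : Far3 A z b c) (hn0 : ∀ x : G, n • x = 0)
    (hFF : FatFull3 H θ) (hm : 100 * s * (b + 1) * (E + θ + 10) ≤ m)
    (hcyc : ∀ x ∈ A, ∃ T ⊆ A.erase x, #T = n ∧ ∑ y ∈ T, y ∈ H) : Hit A n 0 := by
  have hb := h.hb
  by_cases hfb : Nat.card H + θ ≤ 2 * #(row A z b)
  · exact hit_of_fat3 h hf3 hFF hm hcyc hfb
  · have hf0 := h.fat_or hm (by omega) le_rfl le_rfl (by omega) (by omega) hfb
    refine hit_of_fat3 (h.rev hn0) hf3.rev hFF hm hcyc ?_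
    rw [row_rev, sub_self]
    exact hf0

/-- MODULE ENDR3, part 2 -/
theorem end_R2_3 (h : StrR H e q₀ A z m n c 2 o b 1 E) (hf3 : Far3 A z b c) (hFF : FatFull3 H θ)
    (hm' : 200 * (b + 1) * (E + θ + 10) ≤ m) : Hit A n 0 := by
  have hm : 100 * 2 * (b + 1) * (E + θ + 10) ≤ m := hm'
  obtain ⟨r, h3, h4, h5, h6, h7⟩ := h.numbers hm
  have hb := h.hb
  have hmc := h.mc
  have hn := h.hn
  have h9 : 2 * E + θ + 1000 ≤ 100 * (b + 1) * (E + θ + 10) := by nlinarith
  have hR0 := h.row_big h4 h5 h7 (i := 0) le_rfl (by omega)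
  have hRb := h.row_big h4 h5 h7 (i := b) (by omega) le_rfl
  have hoe := order_smul_mem h.order
  have hf0 : Nat.card H + θ ≤ 2 * #(row A z 0) := by
    rw [h.cardH]
    omega
  have hfb : Nat.card H + θ ≤ 2 * #(row A z b) := by
    rw [h.cardH]
    omega
  have hflex : ∀ Y : ℤ, ∑ x ∈ A, z x -
      (∑ x ∈ high A z b, z x + b * (c - #(high A z b) : ℕ)) ≤ Y →
      Y ≤ ∑ x ∈ A, z x - ∑ x ∈ low A z 0, z x → Flex H e A n Y := fun Y h1 h2 =>
    flex_0b3 h hf3 hFF hm hfb hf0 h1 h2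
  have ho : 0 < o := by
    have : m ≤ b * m := Nat.le_mul_of_pos_left m hb
    omega
  by_cases hlen : (∑ x ∈ A, z x -
      (∑ x ∈ high A z b, z x + b * (c - #(high A z b) : ℕ))) + o ≤
      (∑ x ∈ A, z x - ∑ x ∈ low A z 0, z x) + 1
  · exact hit_of_flex ho hoe hlen hflex
  -- the multiple `b o`
  have hlow := sum_low_le_neg_card (A := A) (z := z)
  have hhigh := card_le_sum_high (A := A) (z := z) b
  obtain ⟨a, ha⟩ : ∃ a, a = #(low A z 0) := ⟨_, rfl⟩
  obtain ⟨a', ha'⟩ : ∃ a', a' = #(high A z b) := ⟨_, rfl⟩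
  rw [← ha] at hlow h7
  rw [← ha'] at hhigh h7 hflex hlen
  have hac : a' ≤ c := by omega
  have hsum := sum_three A z b
  have hmid := sum_mid_le h.lift b
  have hmid' := sum_mid_le (z := fun x => (b : ℤ) - z x) (lift_rev h.lift b) b
  have hfil : A.filter (fun x => 0 ≤ (b : ℤ) - z x ∧ (b : ℤ) - z x ≤ b) =
      A.filter (fun x => 0 ≤ z x ∧ z x ≤ b) := by
    refine filter_congr fun x _ => ?_
    constructor
    · rintro ⟨h1, h2⟩
      omega
    · rintro ⟨h1, h2⟩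
      omega
  rw [hfil, sum_rev] at hmid'
  have hcard := card_rows A z (p := 0) (q := b) (by omega)
  have hcard2 : #A = a + #(A.filter (fun x => 0 ≤ z x ∧ z x ≤ b)) + a' := by
    have h1 := card_filter_add_card_filter_not (s := A) (fun x => 0 ≤ z x ∧ z x ≤ b)
    have h2 : A.filter (fun x => ¬ (0 ≤ z x ∧ z x ≤ b)) = out A z 0 b 1 := by
      rw [out]
      refine filter_congr fun x _ => ?_
      push_cast
      constructor
      · intro h10
        by_cases h11 : 0 ≤ z x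
        · exact Or.inr (by
            by_contra h12
            exact h10 ⟨h11, by omega⟩)
        · exact Or.inl (by omega)
      · rintro (h10 | h10) ⟨h11, h12⟩
        · omega
        · omega
    rw [h2, card_out A z (by omega)] at h1
    omega
  obtain ⟨M, hM⟩ : ∃ M, M = #(A.filter (fun x => 0 ≤ z x ∧ z x ≤ b)) := ⟨_, rfl⟩
  rw [← hM] at hcard2 hmid'
  rw [h.card] at hcard2
  obtain ⟨s₁, hs₁⟩ : ∃ s₁, s₁ = ∑ x ∈ A.filter (fun x => 0 ≤ z x ∧ z x ≤ b), z x := ⟨_, rfl⟩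
  obtain ⟨s₀, hs₀⟩ : ∃ s₀, s₀ = ∑ x ∈ low A z 0, z x := ⟨_, rfl⟩
  obtain ⟨s₂, hs₂⟩ : ∃ s₂, s₂ = ∑ x ∈ high A z b, z x := ⟨_, rfl⟩
  rw [← hs₁] at hsum hmid hmid'
  rw [← hs₀] at hsum hlow hlen hflex
  rw [← hs₂] at hsum hhigh hlen hflex
  rw [hsum] at hlen hflex
  rw [h.cardH] at hmid hmid'
  have hbcN : b * c = b * (c - a') + b * a' := by
    rw [← mul_add]
    congr 1
    omega
  have hbc : (b : ℤ) * c = b * (c - a' : ℕ) + b * a' := by exact_mod_cast hbcN
  have hbmc : (b : ℤ) * m ≤ b * c := by exact_mod_cast Nat.mul_le_mul_left b hmc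
  have hr2 : (r : ℤ) * 2 = m := by
    have : r * 2 = m := by omega
    exact_mod_cast this
  have hoz : (o : ℤ) = b * m + r := by exact_mod_cast h3
  have hnz : (n : ℤ) = b * (m * 2) + m := by
    have : n = b * (m * 2) + m := by omega
    exact_mod_cast this
  have hMz : (M : ℤ) = n + c - a - a' := by omega
  push Not at hlen
  have haa : (a : ℤ) + a' ≤ r := by
    rw [hoz] at hlen
    linarith
  have hb0 : (0 : ℤ) ≤ b := by omega
  have ha0 : (0 : ℤ) ≤ a := by omega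
  have ha'0 : (0 : ℤ) ≤ a' := by omega
  have hcz : (m : ℤ) ≤ c := by exact_mod_cast hmc
  have e1 : (b : ℤ) * a ≤ b * r := mul_le_mul_of_nonneg_left (by linarith) hb0
  have e2 : (b : ℤ) * a' ≤ b * r := mul_le_mul_of_nonneg_left (by linarith) hb0
  refine hit_of_flex_mul hoe (a := (b : ℤ)) (hflex _ ?_ ?_)
  · rw [hoz]
    push_cast at hmid
    have e3 : (m : ℤ) * 2 * (b * (b + 1)) = 2 * (b * (b * m)) + 2 * (b * m) := by ring
    have e4 : (b : ℤ) * (b * m + r) = b * (b * m) + b * r := by ring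
    rw [e3] at hmid
    rw [e4]
    linarith
  · rw [hoz]
    rw [hMz, hnz] at hmid'
    push_cast at hmid'
    have e3 : (m : ℤ) * 2 * (b * (b + 1)) = 2 * (b * (b * m)) + 2 * (b * m) := by ring
    have e4 : (b : ℤ) * (b * m + r) = b * (b * m) + b * r := by ring
    have e5 : (b * (m * 2) + m + c - a - a' : ℤ) * b =
        2 * (b * (b * m)) + b * m + b * c - b * a - b * a' := by ring
    have e6 : ((b : ℤ) + 1) * a' = b * a' + a' := by ring
    have e7 : (b : ℤ) * m = 2 * (b * r) := by rw [← hr2]; ring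
    rw [e3, e5] at hmid'
    rw [e6] at hhigh
    rw [e4]
    linarith

end Pool.Agent.Lib.MPa7239a.RT
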