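import Pool.Agent.Lib.MP_a7239a_co.RG.ENDS
import Pool.Agent.Lib.MP_a7239a_co.RT.FLX3

/-!
# The case `s = 1` with `FatFull3` (module ENDS3, helper41)
-/

set_option autoImplicit false

open Finset

namespace Pool.Agent.Lib.MPa7239a.RT

open Pool.Agent.Lib.MPa7239a.GC
open Pool.Agent.Lib.MPa7239a.RK
open Pool.Agent.Lib.MPa7239a.RG (FatFull3 SumZero)

namespace ENDS3

variable {G : Type*} [AddCommGroup G] {H : AddSubgroup G} {e q₀ : G} {A : Finset G} {z : G → ℤ}
  {m n c o b E θ : ℕ}

/-- the hypotheses of the flexible interval -/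
theorem ready3 [Finite G] (h : StrP H e q₀ A z m n c 1 o b E) (hb : 2 ≤ b) (hFF : FatFull3 H θ)
    (hm : 300 * (E + θ + 10) ≤ m) : Ready3 H e q₀ A z n c θ (m / 2 + 6) 0 b 0 b := by
  have hmc := h.mc
  have hfew := ENDS.few h
  have hbm : 2 * m ≤ b * m := Nat.mul_le_mul_right m hb
  refine ⟨h.card, h.nq, h.lift, hFF, ?_, by omega, le_rfl, by omega, le_rfl, ?_, ?_, ?_, ?_⟩
  · have h1 := h.few
    rw [ENDS.hn h]
    omega
  · intro i hi hib
    have h1 := ENDS.le_row h hi hib
    omega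
  · have h1 := ENDS.le_row h (i := 0) le_rfl (by omega)
    omega
  · have h1 := ENDS.le_row h (i := b) (by omega) le_rfl
    omega
  · intro x hx d hd hzx
    have h1 := h.near x hx d hd hzx
    rw [h.ho] at h1
    have h2 : #(out A z 0 b d) ≤ E := by
      refine le_trans (card_le_card ?_) h.few
      intro y hy
      rw [mem_out] at hy ⊢
      refine ⟨hy.1, ?_⟩
      rcases hy.2 with h3 | h3
      · exact Or.inl (by push_cast; omega)
      · exact Or.inr (by push_cast; omega)
    have h3 : b * m ≤ b * (2 * (m / 2) + 1) := Nat.mul_le_mul_left b (by omega)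
    have h4 : b * (#(out A z 0 b d) + 3) + b * (m / 2 + 6) ≤ b * c := by
      rw [← Nat.mul_add]
      exact Nat.mul_le_mul_left b (by omega)
    have h5 : d ≤ b * (m / 2 + 6) := by
      have h6 : b * (2 * (m / 2) + 1) = 2 * (b * (m / 2)) + b := by ring
      have h7 : b * (m / 2 + 6) = b * (m / 2) + 6 * b := by ring
      omega
    constructor
    · push_cast
      have h8 : (d : ℤ) ≤ b * ((m / 2 : ℕ) + 6) := by exact_mod_cast h5
      push_cast at h8
      linarith
    · have h8 : (b : ℤ) * (#(out A z 0 b d) + 3) + b * ((m / 2 : ℕ) + 6) ≤ b * c := by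
        exact_mod_cast h4
      have h9 : (d : ℤ) ≤ b * ((m / 2 : ℕ) + 6) := by exact_mod_cast h5
      linarith

/-- the lower half of the flexible range of sums of omitted sets -/
theorem flex_low3 [Finite G] [DecidableEq G] (h : StrP H e q₀ A z m n c 1 o b E) (hb : 2 ≤ b)
    (hFF : FatFull3 H θ) (hm : 300 * (E + θ + 10) ≤ m) {y : ℤ}
    (h1 : ∑ x ∈ low A z 0, z x + 1 ≤ y)
    (h2 : ∑ x ∈ low A z 0, z x + ((c : ℤ) - #(low A z 0) - #(row A z 0)) + 1 ≤ y)
    (h3 : y ≤ ∑ x ∈ high A z b, z x + (m / 2 : ℕ) * b) :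
    Flex H e A n (∑ x ∈ A, z x - y) := by
  have hmc := h.mc
  have hcm := h.cm
  have hfew := ENDS.few h
  have hr0 := ENDS.le_row h (i := 0) le_rfl (by omega)
  have hr0' := ENDS.row_le h 0
  have hr1 := ENDS.le_row h (i := 1) (by omega) (by omega)
  have hr1' := ENDS.row_le h 1
  have hrb := ENDS.le_row h (i := b) (by omega) le_rfl
  have hrb' := ENDS.row_le h b
  by_cases hc : y ≤ ∑ x ∈ low A z 0, z x + ((c : ℤ) - #(low A z 0) - #(row A z 0)) + 2
  · obtain ⟨j, hj⟩ := Int.eq_ofNat_of_zero_le (show 0 ≤ y - ∑ x ∈ low A z 0, z x by omega)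
    obtain ⟨D, hD, hDc, hD0, hD1, hDs⟩ := exists_low A z (c := c) (α := c - #(low A z 0) - j)
      (β := j) (i := 0) (f := 1) (u := 0) (by omega) le_rfl
      (by omega) (by omega) (by omega) (by omega)
    have hy : y = ∑ x ∈ D, z x := by
      rw [hDs]
      omega
    rw [hy]
    refine flex_two h.card h.nq h.lift (i := 0) (f := 1) (by omega) hD hDc (by omega) (by omega)
      (by omega) (by omega) ?_
    rw [ENDS.cardH h, hD0, hD1]
    omega
  · refine flx_num3 (ready3 h hb hFF hm) (f := 0) (i := 1) (j := b) (u := 0) (v := b)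
      (α := c - #(low A z 0) - min (#(row A z 0) - 3) (c - #(low A z 0)))
      (α' := min (#(row A z 0) - 3) (c - #(low A z 0))) (β := m / 2)
      (β' := c - #(high A z b) - m / 2) le_rfl (by omega) ?_ (by omega) (by omega) le_rfl
      (by omega) (by omega) (by omega) (by omega) (by omega) le_rfl (by omega) (by omega)
      (by omega) (by omega) (by omega) _ ?_ ?_
    · rw [ENDS.cardH h]
      omega
    · rw [mul_zero, add_zero]
      linarith
    · rw [mul_zero, add_zero, mul_one]
      omega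

/-- the upper half -/
theorem flex_high3 [Finite G] [DecidableEq G] (h : StrP H e q₀ A z m n c 1 o b E) (hb : 2 ≤ b)
    (hFF : FatFull3 H θ) (hm : 300 * (E + θ + 10) ≤ m) {y : ℤ}
    (h1 : y + 1 ≤ ∑ x ∈ high A z b, z x + ((c : ℤ) - #(high A z b)) * b)
    (h2 : y + 1 + ((c : ℤ) - #(high A z b) - #(row A z b)) ≤
      ∑ x ∈ high A z b, z x + ((c : ℤ) - #(high A z b)) * b)
    (h3 : ∑ x ∈ low A z 0, z x + (m / 2 : ℕ) * b ≤ y) :
    Flex H e A n (∑ x ∈ A, z x - y) := by
  have hmc := h.mc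
  have hcm := h.cm
  have hfew := ENDS.few h
  have hr0 := ENDS.le_row h (i := 0) le_rfl (by omega)
  have hr0' := ENDS.row_le h 0
  have hr1 := ENDS.le_row h (i := (b : ℤ) - 1) (by omega) (by omega)
  have hr1' := ENDS.row_le h ((b : ℤ) - 1)
  have hrb := ENDS.le_row h (i := b) (by omega) le_rfl
  have hrb' := ENDS.row_le h b
  have key : ∀ β β' : ℕ, #(high A z b) + β + β' = c →
      (β : ℤ) * ((b : ℤ) - 1) + β' * b = ((c : ℤ) - #(high A z b)) * b - β := by
    intro β β' hβ
    have h5 : (c : ℤ) - #(high A z b) = β + β' := by omega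
    rw [h5]
    ring
  by_cases hc : ∑ x ∈ high A z b, z x + ((c : ℤ) - #(high A z b)) * b ≤
      y + 2 + ((c : ℤ) - #(high A z b) - #(row A z b))
  · obtain ⟨j, hj⟩ := Int.eq_ofNat_of_zero_le
      (show 0 ≤ ∑ x ∈ high A z b, z x + ((c : ℤ) - #(high A z b)) * b - y by omega)
    obtain ⟨D, hD, hDc, hD0, hD1, hDs⟩ := exists_high A z (c := c)
      (α := j) (β := c - #(high A z b) - j)
      (i := (b : ℤ) - 1) (f := b) (u := b) (by omega) (by omega)
      le_rfl (by omega) (by omega) (by omega)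
    have hy : y = ∑ x ∈ D, z x := by
      have h5 := key j (c - #(high A z b) - j) (by omega)
      rw [hDs]
      omega
    rw [hy]
    refine flex_two h.card h.nq h.lift (i := (b : ℤ) - 1) (f := b) (by omega) hD hDc (by omega)
      (by omega) (by omega) (by omega) ?_
    rw [ENDS.cardH h, hD0, hD1]
    omega
  · have h5 := key (c - #(high A z b) - min (#(row A z b) - 3) (c - #(high A z b)))
      (min (#(row A z b) - 3) (c - #(high A z b))) (by omega)
    refine flx_num3 (ready3 h hb hFF hm) (f := b) (i := 0) (j := (b : ℤ) - 1) (u := 0) (v := b)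
      (α := c - #(low A z 0) - m / 2) (α' := m / 2)
      (β := c - #(high A z b) - min (#(row A z b) - 3) (c - #(high A z b)))
      (β' := min (#(row A z b) - 3) (c - #(high A z b))) (by omega) le_rfl ?_ (by omega) le_rfl
      (by omega) (by omega) (by omega) (by omega) (by omega) (by omega) (by omega) le_rfl
      (by omega) (by omega) (by omega) (by omega) _ ?_ ?_
    · rw [ENDS.cardH h]
      omega
    · omega
    · rw [mul_zero, add_zero]
      linarith

/-- the flexible range -/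
theorem flex_mid3 [Finite G] [DecidableEq G] (h : StrP H e q₀ A z m n c 1 o b E) (hb : 2 ≤ b)
    (hFF : FatFull3 H θ) (hm : 300 * (E + θ + 10) ≤ m) {y : ℤ}
    (h1 : ∑ x ∈ low A z 0, z x + 1 ≤ y)
    (h2 : ∑ x ∈ low A z 0, z x + ((c : ℤ) - #(low A z 0) - #(row A z 0)) + 1 ≤ y)
    (h3 : y + 1 ≤ ∑ x ∈ high A z b, z x + ((c : ℤ) - #(high A z b)) * b)
    (h4 : y + 1 + ((c : ℤ) - #(high A z b) - #(row A z b)) ≤
      ∑ x ∈ high A z b, z x + ((c : ℤ) - #(high A z b)) * b) :
    Flex H e A n (∑ x ∈ A, z x - y) := by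
  rcases le_total y (∑ x ∈ high A z b, z x + (m / 2 : ℕ) * b) with h5 | h5
  · exact flex_low3 h hb hFF hm h1 h2 h5
  · refine flex_high3 h hb hFF hm h3 h4 ?_
    have h6 := ENDS.sum_low_le A z
    have h7 := ENDS.le_sum_high A z b
    have h8 : (0 : ℤ) ≤ (#(high A z b) : ℤ) * (b + 1) := by positivity
    have h9 : (0 : ℤ) ≤ (#(low A z 0) : ℤ) := by positivity
    linarith

end ENDS3

/-- the case `s = 1` -/
theorem end_S3 {G : Type*} [AddCommGroup G] [Finite G] [DecidableEq G] {H : AddSubgroup G}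
    {e q₀ : G} {A : Finset G} {z : G → ℤ} {m n c o b E θ : ℕ}
    (h : StrP H e q₀ A z m n c 1 o b E) (hb : 2 ≤ b) (hn0 : ∀ x : G, n • x = 0)
    (hFF : FatFull3 H θ) (hm : 100 * (b + 1) * (E + θ + 10) ≤ m)
    (hcase : m + 1 ≤ c ∨ Even b ∨ SumZero H) : Hit A n 0 := by
  have hm' : 300 * (E + θ + 10) ≤ m :=
    (Nat.mul_le_mul_right _ (show 300 ≤ 100 * (b + 1) by omega)).trans hm
  have hoe : o • e ∈ H := by
    have h1 := addOrderOf_nsmul_eq_zero ((e : G) : G ⧸ H)
    rw [h.order, ← QuotientAddGroup.mk_nsmul, QuotientAddGroup.eq_zero_iff] at h1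
    exact h1
  have ho : 0 < o := by
    rw [h.ho]
    exact Nat.mul_pos (by omega) (by omega)
  obtain ⟨a₁, ha₁⟩ : ∃ a₁ : ℤ, a₁ = max (∑ x ∈ low A z 0, z x)
    (∑ x ∈ low A z 0, z x + ((c : ℤ) - #(low A z 0) - #(row A z 0))) := ⟨_, rfl⟩
  obtain ⟨a₂, ha₂⟩ : ∃ a₂ : ℤ, a₂ = min (∑ x ∈ high A z b, z x + ((c : ℤ) - #(high A z b)) * b)
      (∑ x ∈ high A z b, z x + ((c : ℤ) - #(high A z b)) * b -
        ((c : ℤ) - #(high A z b) - #(row A z b))) := ⟨_, rfl⟩
  have key : ∀ Y : ℤ, ∑ x ∈ A, z x - a₂ < Y → Y < ∑ x ∈ A, z x - a₁ → Flex H e A n Y := by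
    intro Y h1 h2
    have h3 := ENDS3.flex_mid3 h hb hFF hm' (y := ∑ x ∈ A, z x - Y) (by omega) (by omega)
      (by omega) (by omega)
    rwa [sub_sub_cancel] at h3
  rcases le_or_gt (a₁ + o + 1) a₂ with h1 | h1
  · exact hit_of_flex ho hoe (Y₁ := ∑ x ∈ A, z x - a₂ + 1) (Y₂ := ∑ x ∈ A, z x - a₁ - 1) (by omega)
      fun Y h2 h3 => key Y (by omega) (by omega)
  · obtain ⟨h2, h3, κ, hκ₁, hκ₂, h4, h5⟩ := ENDS.tight h hb ha₁ ha₂ (by omega)
    have ho' : (0 : ℤ) < o := by exact_mod_cast ho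
    have h6 := Int.emod_add_mul_ediv (∑ x ∈ A, z x - a₁) o
    have h7 := Int.emod_nonneg (∑ x ∈ A, z x - a₁) ho'.ne'
    have h8 := Int.emod_lt_of_pos (∑ x ∈ A, z x - a₁) ho'
    rcases h7.eq_or_lt with h9 | h9
    · -- the sum is a multiple of `o`: the rows are full
      rw [← h9, zero_add] at h6
      set a := (∑ x ∈ A, z x - a₁) / o with ha
      have h10 : (o : ℤ) = b * m := by exact_mod_cast h.ho
      have h11 : (b : ℤ) * (2 * (m * a)) = b * (m * (b + 1) + 2 * κ) := by
        rw [← h4, ← h6, h10]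
        ring
      have hb0 : (b : ℤ) ≠ 0 := by
        have : 0 < b := by omega
        exact_mod_cast this.ne'
      have h12 := mul_left_cancel₀ hb0 h11
      have h13 : (m : ℤ) * (2 * a - (b + 1)) = 2 * κ := by linear_combination h12
      have hm0 : (0 : ℤ) < m := by
        have : 0 < m := by omega
        exact_mod_cast this
      have h14 : 2 * a - ((b : ℤ) + 1) = 0 := by
        rcases lt_trichotomy (2 * a - ((b : ℤ) + 1)) 0 with h15 | h15 | h15
        · exfalso
          have h16 : (m : ℤ) * (2 * a - (b + 1)) ≤ m * (-1) :=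
            mul_le_mul_of_nonneg_left (by omega) hm0.le
          omega
        · exact h15
        · exfalso
          have h16 : (m : ℤ) * 1 ≤ m * (2 * a - (b + 1)) :=
            mul_le_mul_of_nonneg_left (by omega) hm0.le
          omega
      rw [h14, mul_zero] at h13
      obtain ⟨h15, h16, h17⟩ := h5 (by omega)
      have hbo : Odd b := by
        rcases Nat.even_or_odd b with h18 | h18
        · exfalso
          obtain ⟨k, hk⟩ := h18
          omega
        · exact h18
      have hmo : SumZero H := by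
        rcases hcase with h18 | h18 | h18
        · omega
        · exact absurd hbo (Nat.not_odd_iff_even.2 h18)
        · exact h18
      exact RG.ENDSM.full_case h hn0 h3 h15 h16 h17 hbo hmo
    · refine hit_of_flex_mul hoe (a := (∑ x ∈ A, z x - a₁) / o) (key _ ?_ ?_)
      · rw [mul_comm]
        omega
      · rw [mul_comm]
        omega

end Pool.Agent.Lib.MPa7239a.RT
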